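import Pool.Agent.Helper48.V10.Ell

/-!
# Project V10. Single rows: `M = Ω(x, y, w)`, `R ⊆ B = Ω(x, y, w ^ n)` (or `B = Ω(x, y, w ^ p - w)`)
-/

set_option autoImplicit false

namespace Pool.Agent.Helper48.V10

open IntermediateField MvPolynomial Pool.Agent.Helper75.QC Pool.Agent.Helper35.V7
  Pool.Agent.Helper40.SD

/-- `y ^ 2 = G(x, w ^ n) * y + F(x, w ^ n)`, `n = [M : Ω(x, y, w ^ n)] ≥ 3`. The weights of `x`, `w`
are `a`, `1`. -/
theorem dbl_row3 {Ω R M : Type} [Field Ω] [IsAlgClosed Ω] [Field R] [Field M] [Algebra Ω R]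
    [Algebra Ω M] [Algebra R M] [IsScalarTower Ω R M] [FiniteDimensional R M] [IsGalois R M]
    {n : ℕ} (hn : 2 < n) (a : ℕ) (F G : MvPolynomial (Fin 2) Ω) (x y w : M)
    (hR : ∀ r : R, algebraMap R M r ∈ adjoin Ω {x, y, w ^ n}) (hM : adjoin Ω {x, y, w} = ⊤)
    (hfin : Module.finrank (adjoin Ω {x, y, w ^ n} : IntermediateField Ω M) M = n)
    (hF : ∀ m ∈ F.support, a * m 0 + n * m 1 ≤ 2 * (a + 1 + n / 2))
    (hG : ∀ m ∈ G.support, a * m 0 + n * m 1 ≤ a + 1 + n / 2)
    (h2 : (2 : Ω) ≠ 0 ∨ aeval ![x, w ^ n] G ≠ 0)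
    (hy : y ^ 2 = aeval ![x, w ^ n] G * y + aeval ![x, w ^ n] F) : Row3 Ω R M := by
  obtain ⟨t, ht⟩ : ∃ t, t = w ^ n := ⟨_, rfl⟩
  rw [← ht] at hR hfin h2 hy
  have mt : t ∈ (adjoin Ω {x, y, t} : IntermediateField Ω M) := subset_adjoin _ _ (by simp)
  have hM' : adjoin Ω ((adjoin Ω {x, y, t} : Set M) ∪ {w}) = ⊤ := by
    rw [eq_top_iff, ← hM, adjoin_le_iff]
    rintro s (rfl | rfl | rfl)
    · exact subset_adjoin _ _ (Or.inl (subset_adjoin _ _ (by simp)))
    · exact subset_adjoin _ _ (Or.inl (subset_adjoin _ _ (by simp)))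
    · exact subset_adjoin _ _ (Or.inr rfl)
  obtain ⟨hn0, hn', hw⟩ := Pool.Agent.Helper73.V7.cyc_dataB (adjoin Ω {x, y, t}) w hR hM' hfin (by rw [← ht]; exact mt)
  have e1 : ({x, t, y} : Set M) = {x, y, t} := by
    ext z
    simp only [Set.mem_insert_iff, Set.mem_singleton_iff]
    tauto
  refine ⟨n, 1, 1, x, t, y, w, hn0, hn', by simp, ?_, ?_, ?_, mem_acl F G hy, ?_, ?_, ?_,
    hw (by omega), ?_, fun N _ _ g v s hv hs => ?_⟩
  · intro h
    have := Nat.le_of_dvd one_pos h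
    omega
  · intro h
    have := Nat.le_of_dvd one_pos h
    omega
  · intro h
    have := Nat.le_of_dvd two_pos h
    omega
  · rw [e1]
    exact hR
  · rw [eq_top_iff, ← hM, adjoin_le_iff]
    rintro s (rfl | rfl | rfl)
    · exact subset_adjoin _ _ (by simp)
    · exact subset_adjoin _ _ (by simp)
    · exact subset_adjoin _ _ (by simp)
  · rw [e1]
    exact hfin
  · rw [e1, ← ht]
    exact mt
  · rw [pow_one, pow_one] at hs
    have hv0 : v ≠ 0 := by
      rintro rfl
      exact hv isAlgebraic_zero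
    have hv1 : 1 - v ≠ 0 := by
      intro h
      have h1 : v = 1 := by linear_combination -h
      rw [h1] at hv
      exact hv isAlgebraic_one
    have hs0 : s ≠ 0 := by
      rintro rfl
      rw [zero_pow hn0.ne', zero_mul] at hs
      exact mul_ne_zero hv0 hv1 hs
    have h5 : v * (1 - v) = s ^ n * g t := by rw [hs, ht, map_pow]
    have h8 := uni_dbl (n := n) (a := a) F G hF hG (x := g x) (y := g y) hs0 h5 (by
      refine h2.imp id fun h9 h10 => h9 ?_
      rw [← map_aeval75 g] at h10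
      exact (map_eq_zero g).1 h10) (by
      rw [← map_aeval75 g, ← map_aeval75 g, ← map_pow, hy, map_add, map_mul])
    refine uniruled_adjoin (AlgHom.id Ω N) _ _ ?_ h8
    rintro z (rfl | rfl | rfl | rfl | rfl)
    · exact subset_adjoin _ _ (by simp)
    · exact subset_adjoin _ _ (by simp)
    · exact subset_adjoin _ _ (by simp)
    · exact subset_adjoin _ _ (by simp)
    · exact subset_adjoin _ _ (by simp)

open Pool.Agent.Helper73.WT Pool.Agent.Helper73.QX in
/-- `y ^ 2 = G(x, t) * y + F(x, t)`, `w ^ p - w = c * t`, `p = [M : Ω(x, y, t)]`. The weights of `x`,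
`t` are `a`, `T`. -/
theorem dbl_rowW {p : ℕ} [hp : Fact p.Prime] {Ω R M : Type} [Field Ω] [Algebra (ZMod p) Ω]
    [IsAlgClosed Ω] [Field R] [Field M] [Algebra Ω M] [Algebra R M] {a g h T : ℕ}
    (hT1 : aux p * h ≤ T) (hT2 : p * g ≤ T) (hpos : 0 < a + h + g)
    (F G : MvPolynomial (Fin 2) Ω) (x y w t : M) {c : Ω} (hc : c ≠ 0)
    (hwt : w ^ p - w = algebraMap Ω M c * t)
    (hR : ∀ r : R, algebraMap R M r ∈ adjoin Ω {x, y, t}) (hM : adjoin Ω {x, y, w} = ⊤)
    (hfin : Module.finrank (adjoin Ω {x, y, t} : IntermediateField Ω M) M = p)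
    (hF : ∀ m ∈ F.support, a * m 0 + T * m 1 ≤ 2 * (a + h + g))
    (hG : ∀ m ∈ G.support, a * m 0 + T * m 1 ≤ a + h + g)
    (h2 : (2 : Ω) ≠ 0 ∨ aeval ![x, t] G ≠ 0)
    (hy : y ^ 2 = aeval ![x, t] G * y + aeval ![x, t] F) : RowW p Ω R M := by
  have e1 : ({x, t, y} : Set M) = {x, y, t} := by
    ext z
    simp only [Set.mem_insert_iff, Set.mem_singleton_iff]
    tauto
  refine ⟨x, t, y, w, mem_acl F G hy, ?_, ?_, ?_, ?_, fun N _ _ f d s hs heq => ?_⟩
  · rw [e1]
    exact hR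
  · rw [eq_top_iff, ← hM, adjoin_le_iff]
    rintro s (rfl | rfl | rfl)
    · exact subset_adjoin _ _ (by simp)
    · exact subset_adjoin _ _ (by simp)
    · exact subset_adjoin _ _ (by simp)
  · rw [e1]
    exact hfin
  · rw [e1, hwt]
    exact mul_mem (IntermediateField.algebraMap_mem _ _) (subset_adjoin _ _ (by simp))
  · have hcN : algebraMap Ω N c ≠ 0 := (_root_.map_ne_zero _).2 hc
    have h5 : f t = algebraMap Ω N c⁻¹ * (s ^ aux p - (d ^ p - d)) := by
      rw [hwt, map_mul, AlgHom.commutes] at heq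
      rw [heq, map_inv₀]
      field_simp
      ring
    have h6 := uni_dbl_wild (m := aux p) (p := p) (a := a) (g := g) (h := h) (T := T) c⁻¹
      hp.out.pos hT1 hT2 hpos F G hF hG (x := f x) (y := f y) h5 (by
        refine h2.imp id fun h9 h10 => h9 ?_
        rw [← map_aeval75 f] at h10
        exact (map_eq_zero f).1 h10) (by
        rw [← map_aeval75 f, ← map_aeval75 f, ← map_pow, hy, map_add, map_mul])
    have e4 : ({f x, f t, f y, d, s} : Set N) = {f x, f y, f t, d, s} := by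
      ext z
      simp only [Set.mem_insert_iff, Set.mem_singleton_iff]
      tauto
    rw [e4]
    exact h6

end Pool.Agent.Helper48.V10
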