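import Pool.Agent.Helper48.V10.Rows

/-!
# Project V10. The elliptic surfaces
-/

set_option autoImplicit false

namespace Pool.Agent.Helper48.V10

open IntermediateField MvPolynomial Pool.Agent.Helper75.QC Pool.Agent.Helper35.V7
  Pool.Agent.Helper9.TR Pool.Agent.Helper73.V7

/-- the coefficient of `y` -/
noncomputable def ellG {Ω : Type} [Field Ω] (a₁ a₃ : Polynomial Ω) : MvPolynomial (Fin 2) Ω :=
  -(Polynomial.aeval (X 1) a₁ * X 0) + -(Polynomial.aeval (X 1) a₃)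

/-- the cubic polynomial -/
noncomputable def ellF {Ω : Type} [Field Ω] (a₂ a₄ a₆ : Polynomial Ω) :
    MvPolynomial (Fin 2) Ω :=
  X 0 ^ 3 + Polynomial.aeval (X 1) a₂ * X 0 ^ 2 + Polynomial.aeval (X 1) a₄ * X 0 +
    Polynomial.aeval (X 1) a₆

section

variable {Ω : Type} [Field Ω] {m T : ℕ} (a₁ a₂ a₃ a₄ a₆ : Polynomial Ω)

theorem ellG_le (h₁ : T * a₁.natDegree ≤ m) (h₃ : T * a₃.natDegree ≤ 3 * m) :
    ∀ i ∈ (ellG a₁ a₃).support, 2 * m * i 0 + T * i 1 ≤ 3 * m := by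
  have e0 : WLE ![2 * m, T] (2 * m) (X 0 : MvPolynomial (Fin 2) Ω) := wle_X 0
  have e2 : ∀ (p : Polynomial Ω) (d : ℕ), T * p.natDegree ≤ d →
      WLE ![2 * m, T] d (Polynomial.aeval (X 1 : MvPolynomial (Fin 2) Ω) p) := by
    intro p d hd
    refine wle_poly 1 p d ?_
    show p.natDegree * T ≤ d
    rwa [mul_comm]
  have h : WLE ![2 * m, T] (3 * m) (ellG a₁ a₃) := by
    refine WLE.add ?_ (e2 a₃ _ h₃).neg
    exact wle_mono (by omega) (wle_mul (e2 a₁ _ h₁) e0).neg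
  intro i hi
  have h7 := h i hi
  rw [Fin.sum_univ_two] at h7
  exact h7

theorem ellF_le (h₂ : T * a₂.natDegree ≤ 2 * m) (h₄ : T * a₄.natDegree ≤ 4 * m)
    (h₆ : T * a₆.natDegree ≤ 6 * m) :
    ∀ i ∈ (ellF a₂ a₄ a₆).support, 2 * m * i 0 + T * i 1 ≤ 2 * (3 * m) := by
  have e0 : WLE ![2 * m, T] (2 * m) (X 0 : MvPolynomial (Fin 2) Ω) := wle_X 0
  have e2 : ∀ (p : Polynomial Ω) (d : ℕ), T * p.natDegree ≤ d →
      WLE ![2 * m, T] d (Polynomial.aeval (X 1 : MvPolynomial (Fin 2) Ω) p) := by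
    intro p d hd
    refine wle_poly 1 p d ?_
    show p.natDegree * T ≤ d
    rwa [mul_comm]
  have h : WLE ![2 * m, T] (2 * (3 * m)) (ellF a₂ a₄ a₆) := by
    refine WLE.add (WLE.add (WLE.add ?_ ?_) ?_) (wle_mono (by omega) (e2 a₆ _ h₆))
    · exact wle_mono (by omega) (wle_pow e0 3)
    · exact wle_mono (by omega) (wle_mul (e2 a₂ _ h₂) (wle_pow e0 2))
    · exact wle_mono (by omega) (wle_mul (e2 a₄ _ h₄) e0)
  intro i hi
  have h7 := h i hi
  rw [Fin.sum_univ_two] at h7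
  exact h7

theorem aeval_poly {N : Type} [Field N] [Algebra Ω N] (x t : N) (p : Polynomial Ω) :
    aeval ![x, t] (Polynomial.aeval (X 1 : MvPolynomial (Fin 2) Ω) p) = Polynomial.aeval t p := by
  rw [← Polynomial.aeval_algHom_apply, aeval_X]
  rfl

theorem aeval_ellG {N : Type} [Field N] [Algebra Ω N] (x t : N) :
    aeval ![x, t] (ellG a₁ a₃) =
      -(Polynomial.aeval t a₁ * x) + -(Polynomial.aeval t a₃) := by
  rw [ellG, map_add, map_neg, map_neg, map_mul, aeval_poly, aeval_poly, aeval_X]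
  rfl

theorem ell_eq {N : Type} [Field N] [Algebra Ω N] (x y t : N)
    (h : y ^ 2 + Polynomial.aeval t a₁ * x * y + Polynomial.aeval t a₃ * y =
      x ^ 3 + Polynomial.aeval t a₂ * x ^ 2 + Polynomial.aeval t a₄ * x +
        Polynomial.aeval t a₆) :
    y ^ 2 = aeval ![x, t] (ellG a₁ a₃) * y + aeval ![x, t] (ellF a₂ a₄ a₆) := by
  rw [aeval_ellG]
  simp only [ellF, map_add, map_mul, map_pow, aeval_X, aeval_poly, Matrix.cons_val_zero]
  linear_combination h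

end

/-- a uniruled surface -/
theorem rows_of_uniruled {Ω K : Type} [Field Ω] [Field K] [Algebra Ω K] (h : Uniruled Ω K 2) :
    ∃ R : IntermediateField Ω K, FiniteDimensional R K ∧ IsGalois R K ∧
      (∀ g h : K ≃ₐ[R] K, g * h = h * g) ∧ ∀ M : IntermediateField R K, Uniruled Ω M 2 := by
  have hfd : FiniteDimensional (⊤ : IntermediateField Ω K) K :=
    Module.finite_of_finrank_pos (by rw [IntermediateField.finrank_top]; exact one_pos)
  refine ⟨⊤, hfd, ?_, fun g g' => ?_, fun M =>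
    Pool.Agent.Helper73.SS.uniruled_hom h (M.val.restrictScalars Ω)⟩
  · refine isGalois_iff.2 ⟨⟨fun k => ?_⟩, ⟨fun k => ?_⟩⟩
    · have h1 : k = algebraMap (⊤ : IntermediateField Ω K) K ⟨k, mem_top⟩ := rfl
      rw [h1]
      exact isSeparable_algebraMap _
    · have h1 : k = algebraMap (⊤ : IntermediateField Ω K) K ⟨k, mem_top⟩ := rfl
      rw [h1, minpoly.eq_X_sub_C, Polynomial.map_sub, Polynomial.map_X, Polynomial.map_C]
      exact Polynomial.Splits.X_sub_C _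
  · have h1 : ∀ g : K ≃ₐ[(⊤ : IntermediateField Ω K)] K, g = 1 := fun g =>
      AlgEquiv.ext fun k => g.commutes ⟨k, mem_top⟩
    rw [h1 g, h1 g']

/-- the case of an inseparable equation in characteristic two -/
theorem uniruled_of_zero {Ω K : Type} [Field Ω] [IsAlgClosed Ω] [Field K] [Algebra Ω K]
    (h2 : (2 : Ω) = 0) (F G : MvPolynomial (Fin 2) Ω) {x y w t : K}
    (hK : adjoin Ω {x, y, w} = ⊤) (ht : t ∈ adjoin Ω {x, w}) (h0 : aeval ![x, t] G = 0)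
    (hy : y ^ 2 = aeval ![x, t] G * y + aeval ![x, t] F) : Uniruled Ω K 2 := by
  refine uniruled_insep h2 hK ?_
  rw [hy, h0, zero_mul, zero_add]
  have h1 : adjoin Ω {x, t} ≤ adjoin Ω {x, w} := by
    rw [adjoin_le_iff]
    rintro s (rfl | hs)
    · exact subset_adjoin _ _ (by simp)
    · rw [Set.mem_singleton_iff] at hs
      rw [hs]
      exact ht
  exact h1 (aeval_mem75 x t F)

section Tame

variable {Ω K : Type} [Field Ω] [IsAlgClosed Ω] [Field K] [Algebra Ω K]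

/-- **Cyclic base change, double planes.** -/
theorem dbl_rows' {n : ℕ} (hn : (n : Ω) ≠ 0) (a : ℕ) (F G : MvPolynomial (Fin 2) Ω) (x y w : K)
    (hK : adjoin Ω {x, y, w} = ⊤)
    (hfin : Module.finrank (adjoin Ω {x, y, w ^ n} : IntermediateField Ω K) K = n)
    (hF : ∀ m ∈ F.support, a * m 0 + n * m 1 ≤ 2 * (a + 1 + n / 2))
    (hG : ∀ m ∈ G.support, a * m 0 + n * m 1 ≤ a + 1 + n / 2)
    (hy : y ^ 2 = aeval ![x, w ^ n] G * y + aeval ![x, w ^ n] F) :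
    ∃ R : IntermediateField Ω K, FiniteDimensional R K ∧ IsGalois R K ∧
      (∀ g h : K ≃ₐ[R] K, g * h = h * g) ∧
      ∀ M : IntermediateField R K, Uniruled Ω M 2 ∨ Row3 Ω R M ∨
        ∃ m, n = 2 * m ∧ M.restrictScalars Ω = adjoin Ω {x, y, w ^ m} := by
  by_cases h : (2 : Ω) ≠ 0 ∨ aeval ![x, w ^ n] G ≠ 0
  · exact dbl_rows hn a F G x y w hK hfin hF hG h hy
  · push Not at h
    obtain ⟨R, h1, h2, h3, h4⟩ := rows_of_uniruled (uniruled_of_zero h.1 F G hK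
      (pow_mem (subset_adjoin _ _ (by simp)) n) h.2 hy)
    exact ⟨R, h1, h2, h3, fun M => Or.inl (h4 M)⟩

/-- **Cyclic base change, elliptic surfaces.** -/
theorem ell_rows {n : ℕ} (hn : (n : Ω) ≠ 0) (a₁ a₂ a₃ a₄ a₆ : Polynomial Ω)
    (h₁ : n * a₁.natDegree ≤ 1 + n / 2) (h₂ : n * a₂.natDegree ≤ 2 * (1 + n / 2))
    (h₃ : n * a₃.natDegree ≤ 3 * (1 + n / 2)) (h₄ : n * a₄.natDegree ≤ 4 * (1 + n / 2))
    (h₆ : n * a₆.natDegree ≤ 6 * (1 + n / 2)) (x y w : K) (hK : adjoin Ω {x, y, w} = ⊤)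
    (hfin : Module.finrank (adjoin Ω {x, y, w ^ n} : IntermediateField Ω K) K = n)
    (h : y ^ 2 + Polynomial.aeval (w ^ n) a₁ * x * y + Polynomial.aeval (w ^ n) a₃ * y =
      x ^ 3 + Polynomial.aeval (w ^ n) a₂ * x ^ 2 + Polynomial.aeval (w ^ n) a₄ * x +
        Polynomial.aeval (w ^ n) a₆) :
    ∃ R : IntermediateField Ω K, FiniteDimensional R K ∧ IsGalois R K ∧
      (∀ g h : K ≃ₐ[R] K, g * h = h * g) ∧
      ∀ M : IntermediateField R K, Uniruled Ω M 2 ∨ Row3 Ω R M ∨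
        ∃ m, n = 2 * m ∧ M.restrictScalars Ω = adjoin Ω {x, y, w ^ m} := by
  refine dbl_rows' hn (2 * (1 + n / 2)) (ellF a₂ a₄ a₆) (ellG a₁ a₃) x y w hK hfin ?_ ?_
    (ell_eq a₁ a₂ a₃ a₄ a₆ x y _ h)
  · intro m hm
    have := ellF_le a₂ a₄ a₆ h₂ h₄ h₆ m hm
    omega
  · intro m hm
    have := ellG_le a₁ a₃ h₁ h₃ m hm
    omega

end Tame

section Wild

open Pool.Agent.Helper73.SS Pool.Agent.Helper73.WT Pool.Agent.Helper73.QX
  Pool.Agent.Helper73.QW

variable {p : ℕ} [hp : Fact p.Prime] {Ω : Type} [Field Ω] [Algebra (ZMod p) Ω] [IsAlgClosed Ω]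
  {K : Type} [Field K] [Algebra Ω K]

/-- **Base change by an additive polynomial, double planes.** -/
theorem isCoverW_dbl' {e : ℕ} {l : ℕ → Ω} (hl0 : l 0 ≠ 0) (hle : l e ≠ 0) {a g h T : ℕ}
    (hT1 : aux p * h ≤ T) (hT2 : p * g ≤ T) (hpos : 0 < a + h + g)
    (F G : MvPolynomial (Fin 2) Ω) (x y w : K) (hK : adjoin Ω {x, y, w} = ⊤)
    (hF : ∀ m ∈ F.support, a * m 0 + T * m 1 ≤ 2 * (a + h + g))
    (hG : ∀ m ∈ G.support, a * m 0 + T * m 1 ≤ a + h + g)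
    (hy : y ^ 2 = aeval ![x, addV p (e + 1) l w] G * y +
      aeval ![x, addV p (e + 1) l w] F) : IsCoverW p Ω K := by
  by_cases h2 : (2 : Ω) ≠ 0 ∨ aeval ![x, addV p (e + 1) l w] G ≠ 0
  · exact isCoverW_dbl hl0 hle hT1 hT2 hpos F G x y w hK hF hG h2 hy
  · push Not at h2
    refine isCoverW_of_uniruled (uniruled_of_zero h2.1 F G hK ?_ h2.2 hy)
    unfold addV
    refine sum_mem fun i _ => ?_
    exact mul_mem (IntermediateField.algebraMap_mem _ _)
      (pow_mem (subset_adjoin _ _ (by simp)) _)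

/-- The same with `h = ⌊T / 2⌋`, `g = ⌊T / p⌋` (`h = ⌊T / 3⌋`, `g = ⌊T / 2⌋` if `p = 2`). -/
theorem isCoverW_dbl2 {e : ℕ} {l : ℕ → Ω} (hl0 : l 0 ≠ 0) (hle : l e ≠ 0) {a T : ℕ}
    (F G : MvPolynomial (Fin 2) Ω) (x y w : K) (hK : adjoin Ω {x, y, w} = ⊤)
    (hpos : 0 < a + T / 2 + T / max p 3)
    (hF : ∀ m ∈ F.support, a * m 0 + T * m 1 ≤ 2 * (a + T / 2 + T / max p 3))
    (hG : ∀ m ∈ G.support, a * m 0 + T * m 1 ≤ a + T / 2 + T / max p 3)
    (hy : y ^ 2 = aeval ![x, addV p (e + 1) l w] G * y +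
      aeval ![x, addV p (e + 1) l w] F) : IsCoverW p Ω K := by
  by_cases h2 : p = 2
  · have h3 : max p 3 = 3 := by rw [h2]; decide
    rw [h3] at hpos hF hG
    refine isCoverW_dbl' hl0 hle (a := a) (g := T / 2) (h := T / 3) (T := T) ?_ ?_ (by omega) F G
      x y w hK ?_ ?_ hy
    · rw [aux, if_pos h2]
      exact Nat.mul_div_le T 3
    · rw [h2]
      exact Nat.mul_div_le T 2
    · intro m hm
      have := hF m hm
      omega
    · intro m hm
      have := hG m hm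
      omega
  · have h3 : max p 3 = p := by
      apply max_eq_left
      have := hp.out.two_le
      omega
    rw [h3] at hpos hF hG
    refine isCoverW_dbl' hl0 hle (a := a) (g := T / p) (h := T / 2) (T := T) ?_ ?_ hpos F G
      x y w hK hF hG hy
    · rw [aux, if_neg h2]
      exact Nat.mul_div_le T 2
    · exact Nat.mul_div_le T p

/-- **Base change by an additive polynomial, elliptic surfaces.** -/
theorem isCoverW_ell {e : ℕ} {l : ℕ → Ω} (hl0 : l 0 ≠ 0) (hle : l e ≠ 0)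
    (a₁ a₂ a₃ a₄ a₆ : Polynomial Ω) (h₁ : 2 * max p 3 * a₁.natDegree ≤ max p 3 + 2)
    (h₂ : 2 * max p 3 * a₂.natDegree ≤ 2 * (max p 3 + 2))
    (h₃ : 2 * max p 3 * a₃.natDegree ≤ 3 * (max p 3 + 2))
    (h₄ : 2 * max p 3 * a₄.natDegree ≤ 4 * (max p 3 + 2))
    (h₆ : 2 * max p 3 * a₆.natDegree ≤ 6 * (max p 3 + 2)) (x y w u : K)
    (hK : adjoin Ω {x, y, w} = ⊤) (hu : u = addV p (e + 1) l w)
    (h : y ^ 2 + Polynomial.aeval u a₁ * x * y + Polynomial.aeval u a₃ * y =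
      x ^ 3 + Polynomial.aeval u a₂ * x ^ 2 + Polynomial.aeval u a₄ * x +
        Polynomial.aeval u a₆) : IsCoverW p Ω K := by
  obtain ⟨P, hP⟩ : ∃ P, P = max p 3 := ⟨_, rfl⟩
  rw [← hP] at h₁ h₂ h₃ h₄ h₆
  obtain ⟨g, k, hk, hg, hgk⟩ : ∃ g k : ℕ, aux p * k ≤ 2 * P ∧ p * g ≤ 2 * P ∧ k + g = P + 2 := by
    by_cases h2 : p = 2
    · refine ⟨3, 2, ?_, ?_, ?_⟩
      · rw [aux, if_pos h2, hP, h2]
        decide
      · rw [hP, h2]
        decide
      · rw [hP, h2]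
        decide
    · have h3 : 3 ≤ p := by
        have := hp.out.two_le
        omega
      have h4 : P = p := by rw [hP, max_eq_left h3]
      refine ⟨2, p, ?_, ?_, ?_⟩
      · rw [aux, if_neg h2, h4]
      · rw [h4, mul_comm]
      · rw [h4]
  have hy := ell_eq a₁ a₂ a₃ a₄ a₆ x y u h
  rw [hu] at hy
  refine isCoverW_dbl' hl0 hle (a := 2 * (P + 2)) hk hg (by omega) (ellF a₂ a₄ a₆) (ellG a₁ a₃)
    x y w hK ?_ ?_ hy
  · intro m hm
    have := ellF_le a₂ a₄ a₆ h₂ h₄ h₆ m hm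
    omega
  · intro m hm
    have := ellG_le a₁ a₃ h₁ h₃ m hm
    omega

end Wild

end Pool.Agent.Helper48.V10
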