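import Pool.Agent.Helper40.SD.Gpair

/-!
# Project V10. The threefolds `y ^ 2 = G(x, t) * y + F(x, t)`, `v * (1 - v) = s ^ n * t`, and
`y ^ 2 = G(x, t) * y + F(x, t)`, `v ^ p - v = s ^ m - c * t`, in the case of index one
-/

set_option autoImplicit false

namespace Pool.Agent.Helper48.V10

open IntermediateField MvPolynomial Pool.Agent.Helper75.QC Pool.Agent.Helper40.SD

section

variable {Ω : Type} [Field Ω]

/-- the homogeneous form of `P(x, v * (1 - v) / s ^ n)`, where `x = X / s ^ a` -/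
noncomputable def hom (a n E : ℕ) (P : MvPolynomial (Fin 2) Ω) :
    MvPolynomial (Option (Fin 2)) Ω :=
  ∑ m ∈ P.support, C (coeff m P) * (X (some 0) ^ m 0 *
    (X (some 1) * (C 1 + -X (some 1))) ^ m 1 * X none ^ (E - (a * m 0 + n * m 1)))

theorem wd_zero {ι : Type} [Fintype ι] {w : ι → ℕ} (D : ℕ) : WD w D (0 : MvPolynomial ι Ω) := by
  intro m hm
  simp at hm

theorem wd_sum {ι α : Type} [Fintype ι] {w : ι → ℕ} {D : ℕ} (s : Finset α)
    (F : α → MvPolynomial ι Ω) (h : ∀ a ∈ s, WD w D (F a)) : WD w D (∑ a ∈ s, F a) := by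
  classical
  induction s using Finset.induction_on with
  | empty =>
    rw [Finset.sum_empty]
    exact wd_zero D
  | insert a s ha ih =>
    rw [Finset.sum_insert ha]
    exact (h a (Finset.mem_insert_self _ _)).add (ih fun b hb => h b (Finset.mem_insert_of_mem hb))

theorem wd_hom {a h n E : ℕ} (hh : 2 * h ≤ n) {P : MvPolynomial (Fin 2) Ω}
    (hP : ∀ m ∈ P.support, a * m 0 + n * m 1 ≤ E) :
    WD (fun o : Option (Fin 2) => o.elim 1 ![a, h]) E (hom a n E P) := by
  refine wd_sum _ _ fun m hm => ?_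
  have h1 := hP m hm
  have e0 : WD (fun o : Option (Fin 2) => o.elim 1 ![a, h]) a
      (X (some 0) : MvPolynomial (Option (Fin 2)) Ω) := WD.X (some 0)
  have e1 : WD (fun o : Option (Fin 2) => o.elim 1 ![a, h]) h
      (X (some 1) : MvPolynomial (Option (Fin 2)) Ω) := WD.X (some 1)
  have e2 : WD (fun o : Option (Fin 2) => o.elim 1 ![a, h]) 1
      (X none : MvPolynomial (Option (Fin 2)) Ω) := WD.X none
  have e3 := ((WD.C (w := fun o : Option (Fin 2) => o.elim 1 ![a, h]) (1 : Ω)).mono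
    (Nat.zero_le h)).add e1.neg
  refine ((WD.C _).mul (((e0.pow _).mul ((e1.mul e3).pow _)).mul (e2.pow _))).mono ?_
  have h2 : m 1 * (h + h) ≤ n * m 1 := by
    rw [mul_comm n]
    exact Nat.mul_le_mul_left _ (by omega)
  have h3 : m 0 * a = a * m 0 := mul_comm _ _
  rw [mul_one]
  omega

theorem aeval_hom {N : Type} [Field N] [Algebra Ω N] {a n E : ℕ} {P : MvPolynomial (Fin 2) Ω}
    (hP : ∀ m ∈ P.support, a * m 0 + n * m 1 ≤ E) {x t v s : N} (hv : v * (1 - v) = s ^ n * t) :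
    aeval (fun o : Option (Fin 2) => o.elim s ![x * s ^ a, v]) (hom a n E P) =
      s ^ E * aeval ![x, t] P := by
  have h1 : aeval ![x, t] P = ∑ m ∈ P.support, algebraMap Ω N (coeff m P) * (x ^ m 0 * t ^ m 1) := by
    rw [aeval_def, eval₂_eq']
    refine Finset.sum_congr rfl fun m _ => ?_
    rw [Fin.prod_univ_two]
    rfl
  rw [h1, hom, map_sum, Finset.mul_sum]
  refine Finset.sum_congr rfl fun m hm => ?_
  have h2 := hP m hm
  have h3 : E = (a * m 0 + n * m 1) + (E - (a * m 0 + n * m 1)) := by omega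
  simp only [map_mul, map_pow, map_add, map_neg, aeval_C, aeval_X, map_one]
  show algebraMap Ω N (coeff m P) * ((x * s ^ a) ^ m 0 * (v * (1 + -v)) ^ m 1 *
    s ^ (E - (a * m 0 + n * m 1))) = _
  rw [← sub_eq_add_neg, hv]
  conv_rhs => rw [h3]
  rw [mul_pow, mul_pow, ← pow_mul, ← pow_mul, pow_add, pow_add]
  ring

variable [IsAlgClosed Ω] {N : Type} [Field N] [Algebra Ω N]

/-- **The tame threefolds.** -/
theorem uni_dbl {n a : ℕ} (F G : MvPolynomial (Fin 2) Ω)
    (hF : ∀ m ∈ F.support, a * m 0 + n * m 1 ≤ 2 * (a + 1 + n / 2))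
    (hG : ∀ m ∈ G.support, a * m 0 + n * m 1 ≤ a + 1 + n / 2)
    {x y t v s : N} (hs : s ≠ 0) (hv : v * (1 - v) = s ^ n * t)
    (h2 : (2 : Ω) ≠ 0 ∨ aeval ![x, t] G ≠ 0)
    (hy : y ^ 2 = aeval ![x, t] G * y + aeval ![x, t] F) :
    Uniruled Ω (adjoin Ω {x, y, t, v, s} : IntermediateField Ω N) 3 := by
  obtain ⟨h, hh⟩ : ∃ h, h = n / 2 := ⟨_, rfl⟩
  have hn : 2 * h ≤ n := by omega
  rw [← hh] at hF hG
  obtain ⟨S, hS⟩ : ∃ S, S = a + 1 + h := ⟨_, rfl⟩
  rw [← hS] at hF hG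
  have hsum : ∑ o : Option (Fin 2), (fun o : Option (Fin 2) => o.elim 1 ![a, h]) o = S := by
    rw [Fintype.sum_option, Fin.sum_univ_two]
    show 1 + (a + h) = S
    omega
  have eG := aeval_hom (x := x) hG hv
  have eF := aeval_hom (x := x) hF hv
  refine uni_in_quad (k := 2) (fun o => o.elim 1 ![a, h]) (by rw [hsum]; omega) (hom a n S G)
    (hom a n (2 * S) F) ?_ ?_ ?_ (fun o => o.elim s ![x * s ^ a, v]) (s ^ S * y) ?_ _ ?_
  · refine h2.imp id fun h3 h4 => h3 ?_
    rw [h4, map_zero] at eG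
    rcases mul_eq_zero.1 eG.symm with h5 | h5
    · exact absurd h5 (pow_ne_zero _ hs)
    · exact h5
  · rw [hsum]
    exact wd_hom hn hG
  · rw [hsum]
    exact wd_hom hn hF
  · rw [eG, eF, mul_pow, hy, mul_comm 2 S, pow_mul]
    ring
  · obtain ⟨A, hA⟩ : ∃ A : IntermediateField Ω N, A = adjoin Ω (Set.range
        (fun o : Option (Fin 2) => (o.elim s ![x * s ^ a, v] : N)) ∪ {s ^ S * y}) := ⟨_, rfl⟩
    rw [← hA]
    have ms : s ∈ A := by
      rw [hA]
      exact subset_adjoin _ _ (Or.inl ⟨none, rfl⟩)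
    have mX : x * s ^ a ∈ A := by
      rw [hA]
      exact subset_adjoin _ _ (Or.inl ⟨some 0, rfl⟩)
    have mv : v ∈ A := by
      rw [hA]
      exact subset_adjoin _ _ (Or.inl ⟨some 1, rfl⟩)
    have mr : s ^ S * y ∈ A := by
      rw [hA]
      exact subset_adjoin _ _ (Or.inr rfl)
    rintro z (rfl | rfl | rfl | rfl | rfl)
    · have h5 : z = z * s ^ a / s ^ a := by
        rw [mul_div_cancel_right₀ _ (pow_ne_zero _ hs)]
      rw [h5]
      exact div_mem mX (pow_mem ms _)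
    · have h5 : z = s ^ S * z / s ^ S := by
        rw [mul_div_cancel_left₀ _ (pow_ne_zero _ hs)]
      rw [h5]
      exact div_mem mr (pow_mem ms _)
    · have h5 : z = v * (1 - v) / s ^ n := by
        rw [hv, mul_div_cancel_left₀ _ (pow_ne_zero _ hs)]
      rw [h5]
      exact div_mem (mul_mem mv (sub_mem (one_mem _) mv)) (pow_mem ms _)
    · exact mv
    · exact ms

/-- the polynomial `P(x, κ * (s ^ m - (v ^ p - v)))` -/
noncomputable def sub (κ : Ω) (m p : ℕ) (P : MvPolynomial (Fin 2) Ω) :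
    MvPolynomial (Option (Fin 2)) Ω :=
  ∑ i ∈ P.support, C (coeff i P) * (X (some 0) ^ i 0 *
    (C κ * (X none ^ m + -(X (some 1) ^ p + -X (some 1)))) ^ i 1)

omit [IsAlgClosed Ω] in
theorem wd_sub {a g h m p T D : ℕ} (κ : Ω) (hp : 0 < p) (h1 : m * h ≤ T) (h2 : p * g ≤ T)
    {P : MvPolynomial (Fin 2) Ω} (hP : ∀ i ∈ P.support, a * i 0 + T * i 1 ≤ D) :
    WD (fun o : Option (Fin 2) => o.elim h ![a, g]) D (sub κ m p P) := by
  refine wd_sum _ _ fun i hi => ?_
  have h3 := hP i hi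
  have e0 : WD (fun o : Option (Fin 2) => o.elim h ![a, g]) a
      (X (some 0) : MvPolynomial (Option (Fin 2)) Ω) := WD.X (some 0)
  have e1 : WD (fun o : Option (Fin 2) => o.elim h ![a, g]) g
      (X (some 1) : MvPolynomial (Option (Fin 2)) Ω) := WD.X (some 1)
  have e2 : WD (fun o : Option (Fin 2) => o.elim h ![a, g]) h
      (X none : MvPolynomial (Option (Fin 2)) Ω) := WD.X none
  have e3 : WD (fun o : Option (Fin 2) => o.elim h ![a, g]) T
      (X none ^ m + -(X (some 1) ^ p + -X (some 1)) : MvPolynomial (Option (Fin 2)) Ω) := by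
    refine ((e2.pow m).mono h1).add (((e1.pow p).mono h2).add (e1.neg.mono ?_)).neg
    exact (Nat.le_mul_of_pos_left g hp).trans h2
  refine ((WD.C _).mul ((e0.pow _).mul (((WD.C κ).mul e3).pow _))).mono ?_
  have h4 : i 0 * a = a * i 0 := mul_comm _ _
  have h5 : i 1 * (0 + T) = T * i 1 := by ring
  omega

omit [IsAlgClosed Ω] in
theorem aeval_sub {κ : Ω} {m p : ℕ} (P : MvPolynomial (Fin 2) Ω) {x t v s : N}
    (ht : t = algebraMap Ω N κ * (s ^ m - (v ^ p - v))) :
    aeval (fun o : Option (Fin 2) => o.elim s ![x, v]) (sub κ m p P) = aeval ![x, t] P := by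
  have h1 : aeval ![x, t] P = ∑ m ∈ P.support, algebraMap Ω N (coeff m P) * (x ^ m 0 * t ^ m 1) := by
    rw [aeval_def, eval₂_eq']
    refine Finset.sum_congr rfl fun m _ => ?_
    rw [Fin.prod_univ_two]
    rfl
  rw [h1, sub, map_sum]
  refine Finset.sum_congr rfl fun i hi => ?_
  simp only [map_mul, map_pow, map_add, map_neg, aeval_C, aeval_X]
  show algebraMap Ω N (coeff i P) * (x ^ i 0 * (algebraMap Ω N κ * (s ^ m + -(v ^ p + -v))) ^ i 1) = _
  rw [ht]
  ring

/-- **The wild threefolds.** -/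
theorem uni_dbl_wild {m p a g h T : ℕ} (κ : Ω) (hp : 0 < p) (h1 : m * h ≤ T)
    (h2 : p * g ≤ T) (hpos : 0 < a + h + g) (F G : MvPolynomial (Fin 2) Ω)
    (hF : ∀ i ∈ F.support, a * i 0 + T * i 1 ≤ 2 * (a + h + g))
    (hG : ∀ i ∈ G.support, a * i 0 + T * i 1 ≤ a + h + g)
    {x y t v s : N} (ht : t = algebraMap Ω N κ * (s ^ m - (v ^ p - v)))
    (h3 : (2 : Ω) ≠ 0 ∨ aeval ![x, t] G ≠ 0)
    (hy : y ^ 2 = aeval ![x, t] G * y + aeval ![x, t] F) :
    Uniruled Ω (adjoin Ω {x, y, t, v, s} : IntermediateField Ω N) 3 := by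
  obtain ⟨S, hS⟩ : ∃ S, S = a + h + g := ⟨_, rfl⟩
  rw [← hS] at hF hG
  have hsum : ∑ o : Option (Fin 2), (fun o : Option (Fin 2) => o.elim h ![a, g]) o = S := by
    rw [Fintype.sum_option, Fin.sum_univ_two]
    show h + (a + g) = S
    omega
  have eG := aeval_sub (x := x) G ht
  have eF := aeval_sub (x := x) F ht
  refine uni_in_quad (k := 2) (fun o => o.elim h ![a, g]) (by rw [hsum]; omega) (sub κ m p G)
    (sub κ m p F) ?_ ?_ ?_ (fun o => o.elim s ![x, v]) y ?_ _ ?_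
  · refine h3.imp id fun h3 h4 => h3 ?_
    rw [← eG, h4, map_zero]
  · rw [hsum]
    exact wd_sub κ hp h1 h2 hG
  · rw [hsum]
    exact wd_sub κ hp h1 h2 hF
  · rw [eG, eF, hy]
  · obtain ⟨A, hA⟩ : ∃ A : IntermediateField Ω N, A = adjoin Ω (Set.range
        (fun o : Option (Fin 2) => (o.elim s ![x, v] : N)) ∪ {y}) := ⟨_, rfl⟩
    rw [← hA]
    have ms : s ∈ A := by
      rw [hA]
      exact subset_adjoin _ _ (Or.inl ⟨none, rfl⟩)
    have mx : x ∈ A := by
      rw [hA]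
      exact subset_adjoin _ _ (Or.inl ⟨some 0, rfl⟩)
    have mv : v ∈ A := by
      rw [hA]
      exact subset_adjoin _ _ (Or.inl ⟨some 1, rfl⟩)
    have my : y ∈ A := by
      rw [hA]
      exact subset_adjoin _ _ (Or.inr rfl)
    rintro z (rfl | rfl | rfl | rfl | rfl)
    · exact mx
    · exact my
    · rw [ht]
      exact mul_mem (A.algebraMap_mem _) (sub_mem (pow_mem ms _) (sub_mem (pow_mem mv _) mv))
    · exact mv
    · exact ms

end

end Pool.Agent.Helper48.V10
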