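import Pool.Agent.Helper48.V10.Dbl
import Pool.Agent.Helper48.V9.Power
import Pool.Agent.Helper73.SS.CoverEx

/-!
# Project V10. The surfaces `y ^ 2 = G(x, w ^ n) * y + F(x, w ^ n)` and
`y ^ 2 = G(x, L(w)) * y + F(x, L(w))` as abelian covers
-/

set_option autoImplicit false

namespace Pool.Agent.Helper48.V10

open IntermediateField Pool.Agent.Helper75.QC Pool.Agent.Helper40.SD
  Pool.Agent.Helper35.V7

section

variable {Ω : Type} [Field Ω]

/-- a root of a monic quadratic equation -/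
theorem mem_acl {K : Type} [Field K] [Algebra Ω K] {x t y : K} (F G : MvPolynomial (Fin 2) Ω)
    (hy : y ^ 2 = MvPolynomial.aeval ![x, t] G * y + MvPolynomial.aeval ![x, t] F) :
    y ∈ Acl Ω {x, t} := by
  obtain ⟨f, hf⟩ : ∃ f : adjoin Ω {x, t}, (f : K) = MvPolynomial.aeval ![x, t] F :=
    ⟨⟨_, aeval_mem75 x t F⟩, rfl⟩
  obtain ⟨g, hg⟩ : ∃ g : adjoin Ω {x, t}, (g : K) = MvPolynomial.aeval ![x, t] G :=
    ⟨⟨_, aeval_mem75 x t G⟩, rfl⟩
  refine ⟨Polynomial.X ^ 2 - Polynomial.C g * Polynomial.X - Polynomial.C f, ?_, ?_⟩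
  · intro h
    have h1 := congrArg (fun q => Polynomial.coeff q 2) h
    simp at h1
  · simp only [map_sub, map_mul, map_pow, Polynomial.aeval_X, Polynomial.aeval_C]
    show y ^ 2 - (g : K) * y - (f : K) = 0
    rw [hf, hg, hy]
    ring

/-- In characteristic two the surface `y ^ 2 = f(x, w)` is unirational. -/
theorem uniruled_insep [IsAlgClosed Ω] (h2 : (2 : Ω) = 0) {K : Type} [Field K] [Algebra Ω K]
    {x y w : K} (hK : adjoin Ω {x, y, w} = ⊤) (hy : y ^ 2 ∈ adjoin Ω {x, w}) :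
    Uniruled Ω K 2 := by
  classical
  set E := AlgebraicClosure K
  let ι : K →ₐ[Ω] E := IsScalarTower.toAlgHom Ω K E
  obtain ⟨X, hX⟩ := IsAlgClosed.exists_pow_nat_eq (ι x) two_pos
  obtain ⟨W, hW⟩ := IsAlgClosed.exists_pow_nat_eq (ι w) two_pos
  have h2E : (2 : E) = 0 := by
    have h1 := congrArg (algebraMap Ω E) h2
    rwa [map_zero, map_ofNat] at h1
  have hadd : ∀ a b : E, (a + b) ^ 2 = a ^ 2 + b ^ 2 := by
    intro a b
    linear_combination a * b * h2E
  have key : ∀ z ∈ adjoin Ω {x, w}, ∃ r ∈ adjoin Ω {X, W}, r ^ 2 = ι z := by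
    intro z hz
    induction hz using adjoin_induction with
    | mem z hz =>
      rcases hz with hz | hz
      · exact ⟨X, subset_adjoin _ _ (by simp), by rw [hz, hX]⟩
      · rw [Set.mem_singleton_iff] at hz
        exact ⟨W, subset_adjoin _ _ (by simp), by rw [hz, hW]⟩
    | algebraMap c =>
      obtain ⟨d, hd⟩ := IsAlgClosed.exists_pow_nat_eq c two_pos
      exact ⟨algebraMap Ω E d, IntermediateField.algebraMap_mem _ _, by
        rw [← map_pow, hd, AlgHom.commutes]⟩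
    | add a b _ _ ha hb =>
      obtain ⟨r, hr, hra⟩ := ha
      obtain ⟨s, hs, hsb⟩ := hb
      exact ⟨r + s, add_mem hr hs, by rw [hadd, hra, hsb, map_add]⟩
    | inv a _ ha =>
      obtain ⟨r, hr, hra⟩ := ha
      exact ⟨r⁻¹, inv_mem hr, by rw [inv_pow, hra, map_inv₀]⟩
    | mul a b _ _ ha hb =>
      obtain ⟨r, hr, hra⟩ := ha
      obtain ⟨s, hs, hsb⟩ := hb
      exact ⟨r * s, mul_mem hr hs, by rw [mul_pow, hra, hsb, map_mul]⟩
  obtain ⟨r, hr, hry⟩ := key _ hy
  have h3 : ι y = r := by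
    rw [map_pow] at hry
    have h4 : (r - ι y) ^ 2 = 0 := by
      linear_combination hry + (ι y ^ 2 - r * ι y) * h2E
    exact (sub_eq_zero.1 (pow_eq_zero_iff two_ne_zero |>.1 h4)).symm
  refine ⟨E, inferInstance, inferInstance, ι, {X}, W, by simp, fun k => ?_⟩
  have hle : adjoin Ω {X, W} ≤ adjoin Ω (Acl Ω (({X} : Finset E) : Set E) ∪ {W}) := by
    rw [adjoin_le_iff]
    rintro s (hs | hs)
    · rw [hs]
      refine subset_adjoin _ _ (Or.inl ?_)
      rw [← coe_AF]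
      exact subset_AF _ (by simp)
    · exact subset_adjoin _ _ (Or.inr hs)
  have mX : X ∈ adjoin Ω {X, W} := subset_adjoin _ _ (by simp)
  have mW : W ∈ adjoin Ω {X, W} := subset_adjoin _ _ (by simp)
  have h5 : adjoin Ω {x, y, w} ≤ (adjoin Ω {X, W}).comap ι := by
    rw [adjoin_le_iff]
    rintro s (hs | hs | hs)
    · show ι s ∈ adjoin Ω {X, W}
      rw [hs, ← hX]
      exact pow_mem mX 2
    · show ι s ∈ adjoin Ω {X, W}
      rw [hs, h3]
      exact hr
    · show ι s ∈ adjoin Ω {X, W}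
      rw [Set.mem_singleton_iff] at hs
      rw [hs, ← hW]
      exact pow_mem mW 2
  refine hle (h5 (x := k) ?_)
  rw [hK]
  exact mem_top

end

section Tame

variable {Ω K : Type} [Field Ω] [IsAlgClosed Ω] [Field K] [Algebra Ω K]

/-- **Cyclic base change.** `K = Ω(x, y, w)`, `n = [K : Ω(x, y, w ^ n)]`, and
`y ^ 2 = G(x, w ^ n) * y + F(x, w ^ n)`. The weights of `x`, `w` are `a`, `1`. -/
theorem dbl_rows {n : ℕ} (hn : (n : Ω) ≠ 0) (a : ℕ) (F G : MvPolynomial (Fin 2) Ω) (x y w : K)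
    (hK : adjoin Ω {x, y, w} = ⊤)
    (hfin : Module.finrank (adjoin Ω {x, y, w ^ n} : IntermediateField Ω K) K = n)
    (hF : ∀ m ∈ F.support, a * m 0 + n * m 1 ≤ 2 * (a + 1 + n / 2))
    (hG : ∀ m ∈ G.support, a * m 0 + n * m 1 ≤ a + 1 + n / 2)
    (h2 : (2 : Ω) ≠ 0 ∨ MvPolynomial.aeval ![x, w ^ n] G ≠ 0)
    (hy : y ^ 2 = MvPolynomial.aeval ![x, w ^ n] G * y + MvPolynomial.aeval ![x, w ^ n] F) :
    ∃ R : IntermediateField Ω K, FiniteDimensional R K ∧ IsGalois R K ∧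
      (∀ g h : K ≃ₐ[R] K, g * h = h * g) ∧
      ∀ M : IntermediateField R K, Uniruled Ω M 2 ∨ Row3 Ω R M ∨
        ∃ m, n = 2 * m ∧ M.restrictScalars Ω = adjoin Ω {x, y, w ^ m} := by
  classical
  obtain ⟨t, ht⟩ : ∃ t, t = w ^ n := ⟨_, rfl⟩
  rw [← ht] at hfin h2 hy
  have hn0 : 0 < n := Nat.pos_of_ne_zero (by
    rintro rfl
    simp at hn)
  obtain ⟨R, hR⟩ : ∃ R : IntermediateField Ω K, R = adjoin Ω {x, y, t} := ⟨_, rfl⟩
  have mx : x ∈ R := by
    rw [hR]
    exact subset_adjoin _ _ (by simp)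
  have my : y ∈ R := by
    rw [hR]
    exact subset_adjoin _ _ (by simp)
  have mw : w ^ n ∈ R := by
    rw [hR, ← ht]
    exact subset_adjoin _ _ (by simp)
  have htop : adjoin R {w} = ⊤ := by
    rw [eq_top_iff]
    intro v _
    have h1 : adjoin Ω {x, y, w} ≤ (adjoin R {w}).restrictScalars Ω := by
      rw [adjoin_le_iff]
      rintro s (hs | hs | hs)
      · rw [hs]
        exact (adjoin R {w}).algebraMap_mem ⟨x, mx⟩
      · rw [hs]
        exact (adjoin R {w}).algebraMap_mem ⟨y, my⟩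
      · rw [hs]
        exact mem_adjoin_simple_self R w
    exact h1 (by
      rw [hK]
      exact mem_top)
  obtain ⟨hfd, hgal, hcomm, hM⟩ := V9.kummer_fields R hn mw htop (by rw [hR, hfin])
  refine ⟨R, hfd, hgal, hcomm, fun M => ?_⟩
  obtain ⟨k, m, hkm, hMw, hk⟩ := hM M
  have hxM : x ∈ M := M.algebraMap_mem ⟨x, mx⟩
  have hyM : y ∈ M := M.algebraMap_mem ⟨y, my⟩
  have htM : t ∈ M := by
    rw [ht]
    exact M.algebraMap_mem ⟨w ^ n, mw⟩
  have hwM : w ^ m ∈ M := by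
    rw [hMw]
    exact mem_adjoin_simple_self _ _
  obtain ⟨g1, g2, g3⟩ := Pool.Agent.Helper73.SS.gens_of R hR M hMw hxM hyM htM hwM
  have hk0 : 0 < k := Nat.pos_of_ne_zero (by
    rintro rfl
    omega)
  have hm0 : 0 < m := Nat.pos_of_ne_zero (by
    rintro rfl
    omega)
  -- the equation in `M`
  have hyM' : (⟨y, hyM⟩ : M) ^ 2 = MvPolynomial.aeval ![(⟨x, hxM⟩ : M), ⟨t, htM⟩] G * ⟨y, hyM⟩ +
      MvPolynomial.aeval ![(⟨x, hxM⟩ : M), ⟨t, htM⟩] F := by
    apply Subtype.ext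
    let f : M →ₐ[Ω] K := M.val.restrictScalars Ω
    have h1 : ∀ P : MvPolynomial (Fin 2) Ω,
        ((MvPolynomial.aeval ![(⟨x, hxM⟩ : M), ⟨t, htM⟩] P : M) : K) =
          MvPolynomial.aeval ![x, t] P := fun P => map_aeval75 f _ _ P
    show y ^ 2 = ((MvPolynomial.aeval ![(⟨x, hxM⟩ : M), ⟨t, htM⟩] G : M) : K) * y +
      ((MvPolynomial.aeval ![(⟨x, hxM⟩ : M), ⟨t, htM⟩] F : M) : K)
    rw [h1, h1, hy]
  have hGM : (2 : Ω) ≠ 0 ∨ MvPolynomial.aeval ![(⟨x, hxM⟩ : M), ⟨t, htM⟩] G ≠ 0 := by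
    refine h2.imp id fun h3 h4 => h3 ?_
    let f : M →ₐ[Ω] K := M.val.restrictScalars Ω
    have h1 := map_aeval75 f ⟨x, hxM⟩ ⟨t, htM⟩ G
    rw [h4, map_zero] at h1
    exact h1.symm
  rcases Nat.lt_or_ge 2 k with h3 | h3
  · -- the twist by `u ^ k = v * (1 - v)`
    right
    left
    have hk' : (k : Ω) ≠ 0 := by
      intro h
      apply hn
      rw [hkm]
      push_cast
      rw [h, zero_mul]
    have e1 : ({(⟨x, hxM⟩ : M), ⟨t, htM⟩, ⟨y, hyM⟩} : Set M) = {⟨x, hxM⟩, ⟨y, hyM⟩, ⟨t, htM⟩} := by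
      ext z
      simp only [Set.mem_insert_iff, Set.mem_singleton_iff]
      tauto
    have e2 : ({(⟨x, hxM⟩ : M), ⟨t, htM⟩, ⟨y, hyM⟩, ⟨w ^ m, hwM⟩} : Set M) =
        {⟨x, hxM⟩, ⟨y, hyM⟩, ⟨t, htM⟩, ⟨w ^ m, hwM⟩} := by
      ext z
      simp only [Set.mem_insert_iff, Set.mem_singleton_iff]
      tauto
    have e3 : (⟨w ^ m, hwM⟩ : M) ^ k = ⟨t, htM⟩ := by
      apply Subtype.ext
      show (w ^ m) ^ k = t
      rw [← pow_mul, ht, hkm, mul_comm m]
    refine ⟨k, 1, 1, ⟨x, hxM⟩, ⟨t, htM⟩, ⟨y, hyM⟩, ⟨w ^ m, hwM⟩, hk0, hk', by simp, ?_, ?_, ?_,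
      mem_acl F G hyM', ?_, ?_, ?_, ?_, ?_, fun N _ _ g v s hv hs => ?_⟩
    · intro h
      have := Nat.le_of_dvd one_pos h
      omega
    · intro h
      have := Nat.le_of_dvd one_pos h
      omega
    · intro h
      have := Nat.le_of_dvd two_pos h
      omega
    · rw [e1]
      exact g1
    · rw [e2]
      exact g3
    · rw [e1, Pool.Agent.Helper73.SS.finrank_of_range _ g1 g2, hk]
    · intro h
      have h1 : M = ⊥ := by
        have h4 : w ^ m = 0 := congrArg Subtype.val h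
        rw [hMw, h4, adjoin_zero]
      rw [h1, IntermediateField.finrank_bot] at hk
      omega
    · rw [e1, e3]
      exact subset_adjoin _ _ (by simp)
    · rw [pow_one, pow_one] at hs
      have hv0 : v ≠ 0 := by
        rintro rfl
        exact hv isAlgebraic_zero
      have hv1 : 1 - v ≠ 0 := by
        intro h
        have h1 : v = 1 := by linear_combination -h
        rw [h1] at hv
        exact hv isAlgebraic_one
      have hs0 : s ≠ 0 := by
        rintro rfl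
        rw [zero_pow hk0.ne', zero_mul] at hs
        exact mul_ne_zero hv0 hv1 hs
      set E := AlgebraicClosure N
      let ι : N →ₐ[Ω] E := IsScalarTower.toAlgHom Ω N E
      obtain ⟨σ, hσ⟩ := IsAlgClosed.exists_pow_nat_eq (ι s) hm0
      have hσ0 : σ ≠ 0 := by
        rintro rfl
        rw [zero_pow hm0.ne'] at hσ
        exact hs0 ((map_eq_zero ι).1 hσ.symm)
      have hgt : g ⟨w ^ m, hwM⟩ ^ k = g ⟨t, htM⟩ := by rw [← map_pow, e3]
      have h5 : ι v * (1 - ι v) = σ ^ n * ι (g ⟨t, htM⟩) := by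
        have h6 := congrArg ι hs
        rw [hgt, map_mul, map_mul, map_sub, map_one, map_pow, ← hσ, ← pow_mul, mul_comm m k,
          ← hkm] at h6
        exact h6
      have h7 : ∀ P : MvPolynomial (Fin 2) Ω,
          MvPolynomial.aeval ![ι (g ⟨x, hxM⟩), ι (g ⟨t, htM⟩)] P =
            ι (g (MvPolynomial.aeval ![(⟨x, hxM⟩ : M), ⟨t, htM⟩] P)) := by
        intro P
        rw [map_aeval75 g, map_aeval75 ι]
      have h8 := uni_dbl (n := n) (a := a) F G hF hG (x := ι (g ⟨x, hxM⟩)) (y := ι (g ⟨y, hyM⟩))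
        (t := ι (g ⟨t, htM⟩)) (v := ι v) (s := σ) hσ0 h5 (by
          refine hGM.imp id fun h9 h10 => h9 ?_
          rw [h7] at h10
          exact (map_eq_zero g).1 ((map_eq_zero ι).1 h10)) (by
          rw [h7, h7, ← map_pow, ← map_pow, hyM', map_add, map_add, map_mul, map_mul])
      refine uniruled_adjoin ι _ _ ?_ h8
      rintro z (rfl | rfl | rfl | rfl | rfl)
      · exact subset_adjoin _ _ (by simp)
      · exact subset_adjoin _ _ (by simp)
      · exact subset_adjoin _ _ (by simp)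
      · exact subset_adjoin _ _ (by simp)
      · rw [← hσ]
        exact pow_mem (subset_adjoin _ _ (by simp)) _
  · rcases Nat.lt_or_ge 1 k with h4 | h4
    · -- degree two
      right
      right
      have hk2 : k = 2 := by omega
      subst hk2
      refine ⟨m, hkm, ?_⟩
      have h5 := congrArg (IntermediateField.map (M.val.restrictScalars Ω)) g3
      apply le_antisymm
      · intro z hz
        have h6 : (⟨z, hz⟩ : M) ∈ adjoin Ω {(⟨x, hxM⟩ : M), ⟨y, hyM⟩, ⟨t, htM⟩, ⟨w ^ m, hwM⟩} := by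
          rw [g3]
          exact mem_top
        have h7 : adjoin Ω {(⟨x, hxM⟩ : M), ⟨y, hyM⟩, ⟨t, htM⟩, ⟨w ^ m, hwM⟩} ≤
            (adjoin Ω {x, y, w ^ m}).comap (M.val.restrictScalars Ω) := by
          rw [adjoin_le_iff]
          rintro s (rfl | rfl | rfl | rfl)
          · exact subset_adjoin Ω {x, y, w ^ m} (by simp)
          · exact subset_adjoin Ω {x, y, w ^ m} (by simp)
          · show t ∈ adjoin Ω {x, y, w ^ m}
            rw [ht, hkm, mul_comm, pow_mul]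
            exact pow_mem (subset_adjoin _ _ (by simp)) _
          · exact subset_adjoin Ω {x, y, w ^ m} (by simp)
        exact h7 h6
      · rw [adjoin_le_iff]
        rintro s (rfl | rfl | rfl)
        · exact hxM
        · exact hyM
        · exact hwM
    · -- the field `R`
      left
      have hk1 : k = 1 := by omega
      have h5 : M = ⊥ := by
        rw [← IntermediateField.finrank_eq_one_iff, hk, hk1]
      rw [h5]
      apply Pool.Agent.Helper73.SS.uniruled_bot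
      rw [hR]
      rcases Nat.lt_or_ge 0 (a + n) with h6 | h6
      · refine uniruled_adjoin (AlgHom.id Ω K) _ {x, t, y} ?_ (uni_double_all F G ?_ a n h6 ?_ ?_
          x t y hy)
        · rintro z (rfl | rfl | rfl)
          · exact subset_adjoin _ _ (by simp)
          · exact subset_adjoin _ _ (by simp)
          · exact subset_adjoin _ _ (by simp)
        · refine h2.imp id fun h7 h8 => h7 ?_
          rw [h8, map_zero]
        · intro m' hm'
          have := hF m' hm'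
          omega
        · intro m' hm'
          have := hG m' hm'
          omega
      · omega

end Tame

section Wild

open Pool.Agent.Helper73.SS Pool.Agent.Helper73.WT Pool.Agent.Helper73.QX
  Pool.Agent.Helper73.QW

variable {p : ℕ} [hp : Fact p.Prime] {Ω : Type} [Field Ω] [Algebra (ZMod p) Ω] [IsAlgClosed Ω]
  {K : Type} [Field K] [Algebra Ω K]

omit hp [Algebra (ZMod p) Ω] in
/-- the double plane -/
theorem uni_base {a T S : ℕ} (hpos : 0 < a + T) (hS : S ≤ a + T) (F G : MvPolynomial (Fin 2) Ω)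
    (hF : ∀ m ∈ F.support, a * m 0 + T * m 1 ≤ 2 * S)
    (hG : ∀ m ∈ G.support, a * m 0 + T * m 1 ≤ S) {x y t : K}
    (h2 : (2 : Ω) ≠ 0 ∨ MvPolynomial.aeval ![x, t] G ≠ 0)
    (hy : y ^ 2 = MvPolynomial.aeval ![x, t] G * y + MvPolynomial.aeval ![x, t] F) :
    Uniruled Ω (adjoin Ω {x, y, t} : IntermediateField Ω K) 2 := by
  refine uniruled_adjoin (AlgHom.id Ω K) _ {x, t, y} ?_ (uni_double_all F G ?_ a T hpos ?_ ?_
    x t y hy)
  · rintro z (rfl | rfl | rfl)
    · exact subset_adjoin _ _ (by simp)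
    · exact subset_adjoin _ _ (by simp)
    · exact subset_adjoin _ _ (by simp)
  · refine h2.imp id fun h7 h8 => h7 ?_
    rw [h8, map_zero]
  · intro m' hm'
    have := hF m' hm'
    omega
  · intro m' hm'
    have := hG m' hm'
    omega

/-- **Base change by an additive polynomial.** `K = Ω(x, y, w)` and
`y ^ 2 = G(x, u) * y + F(x, u)`, `u = L(w) = l_0 * w + l_1 * w ^ p + ⋯ + l_e * w ^ p ^ e`,
`l_0 * l_e ≠ 0`. The weights of `x`, `u` are `a`, `T`. -/
theorem isCoverW_dbl {e : ℕ} {l : ℕ → Ω} (hl0 : l 0 ≠ 0) (hle : l e ≠ 0) {a g h T : ℕ}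
    (hT1 : aux p * h ≤ T) (hT2 : p * g ≤ T) (hpos : 0 < a + h + g)
    (F G : MvPolynomial (Fin 2) Ω) (x y w : K) (hK : adjoin Ω {x, y, w} = ⊤)
    (hF : ∀ m ∈ F.support, a * m 0 + T * m 1 ≤ 2 * (a + h + g))
    (hG : ∀ m ∈ G.support, a * m 0 + T * m 1 ≤ a + h + g)
    (h2 : (2 : Ω) ≠ 0 ∨ MvPolynomial.aeval ![x, addV p (e + 1) l w] G ≠ 0)
    (hy : y ^ 2 = MvPolynomial.aeval ![x, addV p (e + 1) l w] G * y +
      MvPolynomial.aeval ![x, addV p (e + 1) l w] F) : IsCoverW p Ω K := by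
  classical
  obtain ⟨u, hu⟩ : ∃ u, u = addV p (e + 1) l w := ⟨_, rfl⟩
  rw [← hu] at h2 hy
  have hS : a + h + g ≤ a + T := by
    have h5 : 2 * h ≤ aux p * h := Nat.mul_le_mul_right h (aux_prime p).two_le
    have h6 : 2 * g ≤ p * g := Nat.mul_le_mul_right g hp.out.two_le
    omega
  have huni : Uniruled Ω (adjoin Ω {x, y, u} : IntermediateField Ω K) 2 :=
    uni_base (by omega) hS F G hF hG h2 hy
  rcases Nat.eq_zero_or_pos e with he0 | he0
  · subst he0
    have h1 : u = algebraMap Ω K (l 0) * w := by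
      rw [hu]
      unfold addV
      rw [Finset.sum_range_one, pow_zero, pow_one]
    have h5 : adjoin Ω {x, y, u} = ⊤ := by
      rw [h1, ← adjoin_scale hl0, hK]
    rw [h5] at huni
    exact isCoverW_of_uniruled (uniruled_hom huni (topEquiv (F := Ω) (E := K)).symm.toAlgHom)
  have huR : addV p (e + 1) l w ∈ adjoin Ω {x, y, u} := by
    rw [← hu]
    exact subset_adjoin _ _ (by simp)
  have htop : adjoin (adjoin Ω {x, y, u} : IntermediateField Ω K) {w} = ⊤ := by
    rw [eq_top_iff]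
    intro z _
    have h1 : adjoin Ω {x, y, w} ≤
        (adjoin (adjoin Ω {x, y, u} : IntermediateField Ω K) {w}).restrictScalars Ω := by
      rw [adjoin_le_iff]
      rintro v (hv | hv | hv)
      · rw [hv]
        exact (adjoin (adjoin Ω {x, y, u} : IntermediateField Ω K) {w}).algebraMap_mem
          ⟨x, subset_adjoin _ _ (by simp)⟩
      · rw [hv]
        exact (adjoin (adjoin Ω {x, y, u} : IntermediateField Ω K) {w}).algebraMap_mem
          ⟨y, subset_adjoin _ _ (by simp)⟩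
      · rw [hv]
        exact mem_adjoin_simple_self (adjoin Ω {x, y, u} : IntermediateField Ω K) _
    apply h1
    rw [hK]
    exact mem_top
  obtain ⟨hfd, hgal⟩ := galois_add (p := p) hl0 hle _ huR htop
  obtain ⟨hab, hcyc⟩ := add_cyclic (p := p) hl0 hle he0 _ huR htop
  refine ⟨_, hfd, hgal, hab, fun M hM => ?_⟩
  rcases hcyc M hM with h1 | ⟨w', c', hc0, hw', hMw, hfr⟩
  · left
    rw [h1]
    exact uniruled_bot huni
  right
  rw [← hu] at hw'
  have hck : algebraMap Ω K c' ≠ 0 := (_root_.map_ne_zero _).2 hc0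
  have hxM : x ∈ M := M.algebraMap_mem ⟨x, subset_adjoin _ _ (by simp)⟩
  have hyM : y ∈ M := M.algebraMap_mem ⟨y, subset_adjoin _ _ (by simp)⟩
  have huM : u ∈ M := M.algebraMap_mem ⟨u, subset_adjoin _ _ (by simp)⟩
  have hwM : w' ∈ M := by
    rw [hMw]
    exact mem_adjoin_simple_self _ _
  obtain ⟨g1, g2, g3⟩ := gens_of _ rfl M hMw hxM hyM huM hwM
  have hyM' : (⟨y, hyM⟩ : M) ^ 2 = MvPolynomial.aeval ![(⟨x, hxM⟩ : M), ⟨u, huM⟩] G * ⟨y, hyM⟩ +
      MvPolynomial.aeval ![(⟨x, hxM⟩ : M), ⟨u, huM⟩] F := by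
    apply Subtype.ext
    let f : M →ₐ[Ω] K := M.val.restrictScalars Ω
    have h1 : ∀ P : MvPolynomial (Fin 2) Ω,
        ((MvPolynomial.aeval ![(⟨x, hxM⟩ : M), ⟨u, huM⟩] P : M) : K) =
          MvPolynomial.aeval ![x, u] P := fun P => map_aeval75 f _ _ P
    show y ^ 2 = ((MvPolynomial.aeval ![(⟨x, hxM⟩ : M), ⟨u, huM⟩] G : M) : K) * y +
      ((MvPolynomial.aeval ![(⟨x, hxM⟩ : M), ⟨u, huM⟩] F : M) : K)
    rw [h1, h1, hy]
  have hGM : (2 : Ω) ≠ 0 ∨ MvPolynomial.aeval ![(⟨x, hxM⟩ : M), ⟨u, huM⟩] G ≠ 0 := by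
    refine h2.imp id fun h3 h4 => h3 ?_
    let f : M →ₐ[Ω] K := M.val.restrictScalars Ω
    have h1 := map_aeval75 f ⟨x, hxM⟩ ⟨u, huM⟩ G
    rw [h4, map_zero] at h1
    exact h1.symm
  have e1 : ({(⟨x, hxM⟩ : M), ⟨u, huM⟩, ⟨y, hyM⟩} : Set M) = {⟨x, hxM⟩, ⟨y, hyM⟩, ⟨u, huM⟩} := by
    ext z
    simp only [Set.mem_insert_iff, Set.mem_singleton_iff]
    tauto
  have e2 : ({(⟨x, hxM⟩ : M), ⟨u, huM⟩, ⟨y, hyM⟩, ⟨w', hwM⟩} : Set M) =
      {⟨x, hxM⟩, ⟨y, hyM⟩, ⟨u, huM⟩, ⟨w', hwM⟩} := by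
    ext z
    simp only [Set.mem_insert_iff, Set.mem_singleton_iff]
    tauto
  have e3 : (⟨w', hwM⟩ : M) ^ p - ⟨w', hwM⟩ = algebraMap Ω M c' * ⟨u, huM⟩ :=
    Subtype.ext hw'
  refine ⟨⟨x, hxM⟩, ⟨u, huM⟩, ⟨y, hyM⟩, ⟨w', hwM⟩, mem_acl F G hyM', ?_, ?_, ?_, ?_,
    fun N _ _ f d s hs heq => ?_⟩
  · rw [e1]
    exact g1
  · rw [e2]
    exact g3
  · rw [e1]
    exact (finrank_of_range _ g1 g2).trans hfr
  · rw [e1, e3]
    exact mul_mem (IntermediateField.algebraMap_mem _ _) (subset_adjoin _ _ (by simp))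
  · have hcN : algebraMap Ω N c' ≠ 0 := (_root_.map_ne_zero _).2 hc0
    have h5 : f ⟨u, huM⟩ = algebraMap Ω N c'⁻¹ * (s ^ aux p - (d ^ p - d)) := by
      rw [e3, map_mul, AlgHom.commutes] at heq
      rw [heq, map_inv₀]
      field_simp
      ring
    have h6 := uni_dbl_wild (m := aux p) (p := p) (a := a) (g := g) (h := h) (T := T) c'⁻¹
      hp.out.pos hT1 hT2 hpos F G hF hG (x := f ⟨x, hxM⟩) (y := f ⟨y, hyM⟩) h5 (by
        refine hGM.imp id fun h9 h10 => h9 ?_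
        rw [← map_aeval75 f] at h10
        exact (map_eq_zero f).1 h10) (by
        rw [← map_aeval75 f, ← map_aeval75 f, ← map_pow, hyM', map_add, map_mul])
    have e4 : ({f ⟨x, hxM⟩, f ⟨u, huM⟩, f ⟨y, hyM⟩, d, s} : Set N) =
        {f ⟨x, hxM⟩, f ⟨y, hyM⟩, f ⟨u, huM⟩, d, s} := by
      ext z
      simp only [Set.mem_insert_iff, Set.mem_singleton_iff]
      tauto
    rw [e4]
    exact h6

end Wild

end Pool.Agent.Helper48.V10
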